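import Mathlib
import Pool.Agent.H76.PlanA

namespace Pool.Agent.Results.MP_7589f8_co.Counter

open Finset Pool.Agent.H20 Pool.Agent.H76.PlanA

/-- A planar graph to which no edge can be added with the graph staying planar. -/
def MaximalPlanar {V : Type} (G : SimpleGraph V) : Prop :=
  IsPlanar G ∧ ∀ u v, u ≠ v → ¬ G.Adj u v → ¬ IsPlanar (G ⊔ SimpleGraph.edge u v)

/-- D is an orientation of G: every edge gets exactly one direction. -/
def IsOrientation {V : Type} (G : SimpleGraph V) (D : V → V → Prop) : Prop :=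
  (∀ u v, D u v → G.Adj u v) ∧ ∀ u v, G.Adj u v → (D u v ↔ ¬ D v u)

/-- f(D,k): the number of vertices with out-degree and in-degree at least k. -/
noncomputable def f {V : Type} (D : V → V → Prop) (k : ℕ) : ℕ :=
  {v | k ≤ {w | D v w}.ncard ∧ k ≤ {w | D w v}.ncard}.ncard

def GE : List (Fin 10 × Fin 10) := [(0, 3), (0, 5), (0, 8), (0, 9), (1, 6), (1, 7), (1, 9), (2, 5), (2, 7), (3, 4), (3, 5), (3, 8), (4, 5), (4, 6), (4, 7), (4, 8), (5, 7), (6, 7), (6, 8), (6, 9), (8, 9)]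

def BE : List (Fin 7 × Fin 7) := [(0, 1), (0, 2), (0, 3), (0, 4), (0, 5), (1, 2), (1, 3), (1, 4), (1, 5), (1, 6), (2, 3), (2, 4), (2, 6), (3, 5), (3, 6)]

def bf (k : Fin 9) (x : ℕ) : Fin 7 := ([0, 2, 4, 2, 1, 4, 1, 0, 4, 0, 1, 5, 1, 3, 5, 3, 0, 5, 1, 2, 6, 2, 3, 6, 3, 1, 6] : List (Fin 7)).getD (3 * k + x) 0

def up (a : Fin 7) : Fin 70 := Fin.castLE (by omega) a

def emb (k : Fin 9) (x : Fin 10) : Fin 70 :=
  if x.val < 3 then up (bf k x) else Fin.ofNat 70 (4 + 7 * k + x)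

def L : List (Fin 70 × Fin 70) := BE.map (fun e => (up e.1, up e.2)) ++
  (List.finRange 9).flatMap fun k => GE.map fun e => (emb k e.1, emb k e.2)

def X (v : Fin 70) : ℤ := ([0, 27, 81, 0, 36, 9, 36, 22, 35, 30, 44, 48, 31, 40, 64, 53, 54, 47, 42, 58, 52, 22, 20, 24, 17, 18, 19, 16, 7, 11, 9, 14, 15, 10, 13, 19, 14, 15, 11, 9, 16, 13, 1, 2, 3, 2, 3, 1, 1, 40, 47, 42, 53, 54, 46, 52, 58, 44, 48, 35, 30, 49, 40, 10, 17, 18, 20, 24, 13, 16] : List ℤ).getD v 0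

def Y (v : Fin 70) : ℤ := ([0, 27, 0, 81, 9, 36, 36, 1, 2, 3, 2, 3, 1, 1, 7, 11, 9, 14, 15, 10, 13, 19, 14, 15, 11, 9, 16, 13, 10, 17, 18, 20, 24, 13, 16, 40, 47, 42, 53, 54, 46, 52, 58, 44, 48, 35, 30, 49, 40, 22, 20, 24, 17, 18, 19, 16, 22, 35, 30, 44, 48, 31, 40, 64, 53, 54, 47, 42, 58, 52] : List ℤ).getD v 0

def QL : List Q4 := [(0, 0, 27, 27), (0, 0, 81, 0), (0, 0, 0, 81), (0, 0, 36, 9), (0, 0, 9, 36), (27, 27, 81, 0), (27, 27, 0, 81), (27, 27, 36, 9), (27, 27, 9, 36), (27, 27, 36, 36), (81, 0, 0, 81), (81, 0, 36, 9), (81, 0, 36, 36), (0, 81, 9, 36), (0, 81, 36, 36), (0, 0, 22, 1), (0, 0, 30, 3), (0, 0, 31, 1), (0, 0, 40, 1), (81, 0, 44, 2), (81, 0, 48, 3), (81, 0, 40, 1), (36, 9, 30, 3), (36, 9, 48, 3), (22, 1, 35, 2), (22, 1, 30, 3), (22, 1, 31, 1), (35, 2, 30, 3), (35, 2, 44, 2), (35, 2, 48, 3), (35, 2, 31, 1), (30, 3, 48, 3), (44, 2, 48, 3), (44, 2, 31, 1), (44, 2, 40, 1), (31, 1, 40, 1), (81, 0, 64,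 7), (81, 0, 54, 9), (81, 0, 58, 10), (81, 0, 52, 13), (27, 27, 47, 14), (27, 27, 42, 15), (27, 27, 52, 13), (36, 9, 54, 9), (36, 9, 42, 15), (64, 7, 53, 11), (64, 7, 54, 9), (64, 7, 58, 10), (53, 11, 54, 9), (53, 11, 47, 14), (53, 11, 42, 15), (53, 11, 58, 10), (54, 9, 42, 15), (47, 14, 42, 15), (47, 14, 58, 10), (47, 14, 52, 13), (58, 10, 52, 13), (27, 27, 22, 19), (27, 27, 24, 15), (27, 27, 19, 16), (27, 27, 16, 13), (0, 0, 17, 11), (0, 0, 18, 9), (0, 0, 16, 13), (36, 9, 24, 15), (36, 9, 18, 9), (22, 19, 20, 14), (22, 19, 24, 15), (22, 19, 19, 16), (20, 14, 24, 15), (20, 14, 17, 11), (20, 14, 18, 9), (20, 14, 19, 16), (24, 15, 18, 9), (17, 11, 18, 9), (17, 11, 19, 16), (17, 11, 16, 13), (19, 16, 16, 13), (0, 0, 7, 10), (0, 0, 9, 18), (0, 0, 10, 13), (0, 0, 13, 16), (27, 27, 14, 20), (27, 27, 15, 24), (27, 27, 13, 16), (9, 36, 9, 18), (9, 36, 15, 24), (7, 10, 11, 17), (7, 10, 9, 18), (7, 10, 10, 13), (11, 17, 9,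 18), (11, 17, 14, 20), (11, 17, 15, 24), (11, 17, 10, 13), (9, 18, 15, 24), (14, 20, 15, 24), (14, 20, 10, 13), (14, 20, 13, 16), (10, 13, 13, 16), (27, 27, 19, 40), (27, 27, 15, 42), (27, 27, 16, 46), (27, 27, 13, 52), (0, 81, 11, 53), (0, 81, 9, 54), (0, 81, 13, 52), (9, 36, 15, 42), (9, 36, 9, 54), (19, 40, 14, 47), (19, 40, 15, 42), (19, 40, 16, 46), (14, 47, 15, 42), (14, 47, 11, 53), (14, 47, 9, 54), (14, 47, 16, 46), (15, 42, 9, 54), (11, 53, 9, 54), (11, 53, 16, 46), (11, 53, 13, 52), (16, 46, 13, 52), (0, 81, 1, 58), (0, 81, 3, 48), (0, 81, 1, 49), (0, 81, 1, 40), (0, 0, 2, 35), (0, 0, 3, 30), (0, 0, 1, 40), (9, 36, 3, 48), (9, 36, 3, 30), (1, 58, 2, 44), (1, 58, 3, 48), (1, 58, 1, 49), (2, 44, 3, 48), (2, 44, 2, 35), (2, 44, 3, 30), (2, 44, 1, 49), (3, 48, 3, 30), (2, 35, 3, 30), (2, 35, 1, 49), (2, 35, 1, 40), (1, 49, 1, 40), (27, 27, 40, 22), (27, 27, 42, 24), (27, 27, 46, 19), (27, 27, 52, 16), (81,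 0, 53, 17), (81, 0, 54, 18), (81, 0, 52, 16), (36, 36, 42, 24), (36, 36, 54, 18), (40, 22, 47, 20), (40, 22, 42, 24), (40, 22, 46, 19), (47, 20, 42, 24), (47, 20, 53, 17), (47, 20, 54, 18), (47, 20, 46, 19), (42, 24, 54, 18), (53, 17, 54, 18), (53, 17, 46, 19), (53, 17, 52, 16), (46, 19, 52, 16), (81, 0, 58, 22), (81, 0, 48, 30), (81, 0, 49, 31), (81, 0, 40, 40), (0, 81, 35, 44), (0, 81, 30, 48), (0, 81, 40, 40), (36, 36, 48, 30), (36, 36, 30, 48), (58, 22, 44, 35), (58, 22, 48, 30), (58, 22, 49, 31), (44, 35, 48, 30), (44, 35, 35, 44), (44, 35, 30, 48), (44, 35, 49, 31), (48, 30, 30, 48), (35, 44, 30, 48), (35, 44, 49, 31), (35, 44, 40, 40), (49, 31, 40, 40), (0, 81, 10, 64), (0, 81, 18, 54), (0, 81, 13, 58), (0, 81, 16, 52), (27, 27, 20, 47), (27, 27, 24, 42), (27, 27, 16, 52), (36, 36, 18, 54), (36, 36, 24, 42), (10, 64, 17, 53), (10, 64, 18, 54), (10, 64, 13, 58), (17, 53, 18, 54), (17, 53, 20, 47), (17, 53,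 24, 42), (17, 53, 13, 58), (18, 54, 24, 42), (20, 47, 24, 42), (20, 47, 13, 58), (20, 47, 16, 52), (13, 58, 16, 52)]

def PL : List (ℤ × ℤ) := [(0, 0), (27, 27), (81, 0), (0, 81), (36, 9), (9, 36), (36, 36), (22, 1), (35, 2), (30, 3), (44, 2), (48, 3), (31, 1), (40, 1), (64, 7), (53, 11), (54, 9), (47, 14), (42, 15), (58, 10), (52, 13), (22, 19), (20, 14), (24, 15), (17, 11), (18, 9), (19, 16), (16, 13), (7, 10), (11, 17), (9, 18), (14, 20), (15, 24), (10, 13), (13, 16), (19, 40), (14, 47), (15, 42), (11, 53), (9, 54), (16, 46), (13, 52), (1, 58), (2, 44), (3, 48), (2, 35), (3, 30), (1, 49), (1, 40), (40, 22), (47, 20), (42, 24), (53, 17), (54, 18), (46, 19), (52, 16), (58, 22), (44, 35), (48, 30), (35, 44), (30, 48), (49, 31), (40, 40), (10, 64), (17, 53), (18, 54), (20, 47), (24, 42), (13, 58), (16, 52)]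

def pw : List Q4 → Bool
  | [] => true
  | q :: l => l.all (nx q) && pw l

theorem pw_sound : ∀ l : List Q4, pw l = true → l.Pairwise NoX
  | [], _ => List.Pairwise.nil
  | q :: l, h => by
    simp only [pw, Bool.and_eq_true, List.all_eq_true] at h
    exact List.Pairwise.cons (fun r hr => nx_sound (h.1 r hr)) (pw_sound l h.2)

theorem planar : IsPlanar (SimpleGraph.fromRel fun a b => (a, b) ∈ L) := by
  have e1 : L.map (fun e => (X e.1, Y e.1, X e.2, Y e.2)) = QL := by decide +kernel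
  have e2 : (List.finRange 70).map (fun w => (X w, Y w)) = PL := by decide +kernel
  have e3 : PL.Nodup := by decide +kernel
  have e4 : (QL.all fun q => PL.all fun p => nx q (p.1, p.2, p.1, p.2)) = true := by
    decide +kernel
  have e5 : pw QL = true := by decide +kernel
  refine planar_list L X Y (fun u v h1 h2 => ?_) (fun e he w => ?_) ?_
  · rw [← e2] at e3
    exact List.inj_on_of_nodup_map e3 (List.mem_finRange u) (List.mem_finRange v) (Prod.ext h1 h2)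
  · have a1 : (X e.1, Y e.1, X e.2, Y e.2) ∈ QL := by rw [← e1]; exact List.mem_map_of_mem he
    have a2 : (X w, Y w) ∈ PL := by rw [← e2]; exact List.mem_map_of_mem (List.mem_finRange w)
    exact nx_sound (List.all_eq_true.1 (List.all_eq_true.1 e4 _ a1) _ a2)
  · have := pw_sound _ e5
    rwa [← e1, List.pairwise_map] at this

def tb (a0 a3 a4 a5 a6 a7 a8 a9 : Bool) : ℕ :=
  (29541075927301167854450141629041891623846448511101428606168868011202778439604615284407602669544887250002271065104815962985179648754972036640744943415044173279737781394830068453606974084145494309690261443046383238901147610037774964028425859521165402915735034991332116229 >>> (7 * ((a0 ^^ a3).toNat + 2 * (a0 ^^ a4).toNat + 4 * (a0 ^^ a5).toNat +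
    8 * (a0 ^^ a6).toNat + 16 * (a0 ^^ a7).toNat + 32 * (a0 ^^ a8).toNat +
    64 * (a0 ^^ a9).toNat))) % 128

def Gk (a : Fin 10 → Bool) (m : ℕ) : Prop :=
  (univ.filter fun x : Fin 10 => (8 * m).testBit x).card < (GE.toFinset.filter fun e =>
    a e.1 = a e.2 ∧ (8 * m + 7).testBit e.1 ∧ (8 * m).testBit e.2).card

instance (a : Fin 10 → Bool) (m : ℕ) : Decidable (Gk a m) := by unfold Gk; infer_instance

theorem gk : ∀ a0 a2 a3 a4 a5 a6 a7 a8 a9 : Bool, a0 ≠ a2 →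
    Gk ![a0, a0, a2, a3, a4, a5, a6, a7, a8, a9] (tb a0 a3 a4 a5 a6 a7 a8 a9) := by decide +kernel

theorem L_ne : ∀ e ∈ L, e.1 ≠ e.2 := by
  have : (L.all fun e => e.1 != e.2) = true := by decide +kernel
  simpa using this

theorem gadget (c : Fin 10 → Bool) (h1 : c 0 = c 1) (h2 : c 0 ≠ c 2) (g : Fin 10 → Fin 10)
    (h : ∀ e ∈ GE, c e.1 = c e.2 → (3 ≤ e.1 ∧ g e.1 = e.2) ∨ g e.2 = e.1) : False := by
  obtain ⟨m, hm⟩ : ∃ m, Gk _ m := ⟨_, gk (c 0) (c 2) (c 3) (c 4) (c 5) (c 6) (c 7) (c 8) (c 9) h2⟩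
  have e : ![c 0, c 0, c 2, c 3, c 4, c 5, c 6, c 7, c 8, c 9] = c := by
    funext i; fin_cases i <;> first | rfl | exact h1
  rw [e, Gk] at hm
  refine absurd ((card_le_card ?_).trans (card_image_le (f := fun x => (min x (g x), max x (g x)))))
    (not_le.2 hm)
  intro e he
  simp only [mem_filter, List.mem_toFinset] at he
  have lt : ∀ e ∈ GE, e.1 < e.2 := by decide
  have hb : ∀ x : Fin 10, 3 ≤ x → (8 * m + 7).testBit x = (8 * m).testBit x := by
    intro x hx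
    obtain ⟨y, hy⟩ := Nat.exists_eq_add_of_le (show 3 ≤ x.val from hx)
    rw [hy, add_comm 3, Nat.testBit_add, Nat.testBit_add]
    congr 1
    omega
  have := lt e he.1
  rcases h e he.1 he.2.1 with ⟨h3, h4⟩ | h4
  · exact mem_image.2 ⟨e.1, by simp [← hb _ h3, he.2.2.1], by
      rw [h4, min_eq_left this.le, max_eq_right this.le]⟩
  · exact mem_image.2 ⟨e.2, by simp [he.2.2.2], by
      rw [h4, min_eq_right this.le, max_eq_left this.le]⟩

theorem core (c : Fin 70 → Bool) (g : Fin 70 → Fin 70)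
    (h : ∀ e ∈ L, c e.1 = c e.2 → g e.1 = e.2 ∨ g e.2 = e.1) : False := by
  have a1 : ∀ k, c (up (bf k 0)) = c (up (bf k 1)) → c (up (bf k 0)) ≠ c (up (bf k 2)) →
      ∃ j : Fin 7, 7 ≤ (g (up j)).val ∧ ((g (up j)).val - 7) / 7 = k := by
    intro k h1 h2
    by_contra hn
    have inj : ∀ k x y, emb k x = emb k y → x = y := by decide +kernel
    have mem : ∀ k, ∀ e ∈ GE, 7 ≤ (emb k e.2).val ∧
      ((emb k e.2).val - 7) / 7 = k ∧ (3 ≤ e.1 ∨ ∃ j, emb k e.1 = up j) := by decide +kernel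
    have sp : ∀ x y, g (emb k x) = emb k y →
        (if h : ∃ y, g (emb k x) = emb k y then h.choose else x) = y := by
      intro x y hxy
      have hh : ∃ y, g (emb k x) = emb k y := ⟨y, hxy⟩
      rw [dif_pos hh]
      exact inj k _ _ (hh.choose_spec.symm.trans hxy)
    refine gadget (fun x => c (emb k x)) h1 h2
      (fun x => if h : ∃ y, g (emb k x) = emb k y then h.choose else x) fun e he hc => ?_
    obtain ⟨m2, m3, m4⟩ := mem k e he
    have m1 : (emb k e.1, emb k e.2) ∈ L := List.mem_append_right _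
      (List.mem_flatMap.2 ⟨k, List.mem_finRange k, List.mem_map_of_mem he⟩)
    rcases h _ m1 hc with h3 | h3
    · rcases m4 with m4 | ⟨j, m4⟩
      · exact Or.inl ⟨m4, sp _ _ h3⟩
      · simp only [m4] at h3
        exact absurd ⟨j, by rw [h3]; exact ⟨m2, m3⟩⟩ hn
    · exact Or.inr (sp _ _ h3)
  have k : ∀ a : Fin 7 → Bool, 7 < (BE.toFinset.filter fun e => a e.1 = a e.2).card +
      (univ.filter fun k => a (bf k 0) = a (bf k 1) ∧ a (bf k 0) ≠ a (bf k 2)).card := by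
    decide +kernel
  have k1 := k fun j => c (up j)
  rw [← card_disjSum] at k1
  refine absurd ((card_le_card ?_).trans (card_image_le (s := univ) (f := fun j : Fin 7 =>
    if (g (up j)).val < 7 then (Sum.inl (min j (Fin.ofNat 7 (g (up j))),
      max j (Fin.ofNat 7 (g (up j)))) : Fin 7 × Fin 7 ⊕ Fin 9)
    else Sum.inr (Fin.ofNat 9 (((g (up j)).val - 7) / 7))))) (not_le.2 k1)
  rintro (e | k) he
  · simp only [inl_mem_disjSum, mem_filter, List.mem_toFinset] at he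
    have lt : ∀ e ∈ BE, e.1 < e.2 := by decide
    have u : ∀ j, (up j).val < 7 ∧ Fin.ofNat 7 (up j) = j := by decide
    have l1 := lt e he.1
    have l2 : (up e.1, up e.2) ∈ L := List.mem_append_left _ (List.mem_map_of_mem he.1)
    rcases h _ l2 he.2 with h3 | h3 <;> simp only at h3
    · exact mem_image.2 ⟨e.1, mem_univ _, by
        rw [h3, if_pos (u _).1, (u _).2, min_eq_left l1.le, max_eq_right l1.le]⟩
    · exact mem_image.2 ⟨e.2, mem_univ _, by
        rw [h3, if_pos (u _).1, (u _).2, min_eq_right l1.le, max_eq_left l1.le]⟩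
  · simp only [inr_mem_disjSum, mem_filter] at he
    obtain ⟨j, h1, h2⟩ := a1 k he.2.1 he.2.2
    exact mem_image.2 ⟨j, mem_univ _, by rw [if_neg (by omega), h2]; simp⟩

theorem result : ∃ (n : ℕ) (G : SimpleGraph (Fin n)), MaximalPlanar G ∧
    ∀ D, IsOrientation G D → 0 < f D 2 := by
  classical
  obtain ⟨H, h1, h2⟩ := Finite.exists_le_maximal (p := IsPlanar) planar
  refine ⟨70, H, ⟨h2.1, fun u v huv hn hp => hn ?_⟩, fun D hD => ?_⟩
  · exact h2.2 hp le_sup_left (Or.inr ((SimpleGraph.edge_adj _ _ _ _).2 ⟨Or.inl ⟨rfl, rfl⟩, huv⟩))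
  by_contra h0
  have h3 : ∀ v, {w | D v w}.ncard ≤ 1 ∨ {w | D w v}.ncard ≤ 1 := by
    intro v
    by_contra hv
    exact h0 ((Set.ncard_pos (Set.toFinite _)).2 ⟨v, by
      simp only [Set.mem_ofPred_eq]; omega⟩)
  have h4 : ∀ v, ∃ w, if {w | D v w}.ncard ≤ 1 then ∀ x, D v x → w = x else ∀ x, D x v → w = x := by
    have k : ∀ s : Set (Fin 70), s.ncard ≤ 1 → ∃ w, ∀ x ∈ s, w = x := by
      intro s hs
      rcases s.eq_empty_or_nonempty with rfl | ⟨w, hw⟩
      · exact ⟨0, by simp⟩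
      · exact ⟨w, fun x hx => (Set.ncard_le_one (Set.toFinite _)).1 hs w hw x hx⟩
    intro v
    split_ifs with hv
    · exact k _ hv
    · exact k _ ((h3 v).resolve_left hv)
  choose g hg using h4
  refine core (fun v => decide ({w | D v w}.ncard ≤ 1)) g fun e he hc => ?_
  have ad : H.Adj e.1 e.2 := h1 ((SimpleGraph.fromRel_adj _ _ _).2 ⟨L_ne e he, Or.inl he⟩)
  have o := hD.2 _ _ ad
  have g1 := hg e.1
  have g2 := hg e.2
  rw [decide_eq_decide] at hc
  by_cases hv : {w | D e.1 w}.ncard ≤ 1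
  · rw [if_pos hv] at g1
    rw [if_pos (hc.1 hv)] at g2
    by_cases hd : D e.2 e.1
    · exact Or.inr (g2 _ hd)
    · exact Or.inl (g1 _ (o.2 hd))
  · rw [if_neg hv] at g1
    rw [if_neg fun h => hv (hc.2 h)] at g2
    by_cases hd : D e.2 e.1
    · exact Or.inl (g1 _ hd)
    · exact Or.inr (g2 _ (o.2 hd))

end Pool.Agent.Results.MP_7589f8_co.Counter
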